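import Mathlib
import Pool.Agent.Y717.Cur.I

/-!
# Closed curves and billiard trajectories in fat ball bodies, all dimensions

`BP C` is the intersection of the closed unit balls with centres in `C` (finite or infinite).
-/

set_option autoImplicit false

namespace Pool.Agent.Results.MP_17bf10_co.ClosedCurves

open Metric Pool.Agent.Y717.Cur

/-- Let `C` be a nonempty set of points of `ℝ^d`, `d ≥ 1`, of diameter `δ ≤ 1`, and `P` the
intersection of the unit balls with centres in `C`.  (1) Every closed curve of length at most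
`4 - 2 δ` has a translate inside `P`.  (2) The constant is sharp.  (3) `P` has a billiard
trajectory with two vertices of length `4 - 2 δ`, all trajectories are at least as long, those with
at least three vertices are strictly longer; so every shortest one is 2-periodic.  (4) Every closed
curve of length at most `2` has a translate inside every convex body of constant width one. -/
theorem result : ∀ d : ℕ, 1 ≤ d →
    (∀ C : Set (EuclideanSpace ℝ (Fin d)), C.Nonempty → (∀ c ∈ C, ∀ c' ∈ C, dist c c' ≤ 1) →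
      (∀ γ : ℝ → EuclideanSpace ℝ (Fin d), γ 0 = γ 1 →
        eVariationOn γ (Set.Icc 0 1) ≤ ENNReal.ofReal (4 - 2 * diam C) →
        ∃ t, ∀ s ∈ Set.Icc (0 : ℝ) 1, γ s + t ∈ BP C) ∧
      (∀ L : ℝ, 2 - diam C < L → ∃ x y : EuclideanSpace ℝ (Fin d), dist x y = L ∧
        ∀ t, ¬ (x + t ∈ BP C ∧ y + t ∈ BP C)) ∧
      (∃ p : Fin 2 → EuclideanSpace ℝ (Fin d), IsTraj (BP C) 2 p ∧
        ∑ j, dist (p j) (p (finRotate 2 j)) = 4 - 2 * diam C) ∧
      (∀ (n : ℕ) (p : Fin n → EuclideanSpace ℝ (Fin d)), IsTraj (BP C) n p →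
        4 - 2 * diam C ≤ ∑ i, dist (p i) (p (finRotate n i)) ∧
        (3 ≤ n → 4 - 2 * diam C < ∑ i, dist (p i) (p (finRotate n i))) ∧
        ((∀ (m : ℕ) (q : Fin m → EuclideanSpace ℝ (Fin d)), IsTraj (BP C) m q →
          ∑ i, dist (p i) (p (finRotate n i)) ≤ ∑ j, dist (q j) (q (finRotate m j))) → n = 2))) ∧
    (∀ K : Set (EuclideanSpace ℝ (Fin d)), IsCompact K → Convex ℝ K →
      (∀ u : EuclideanSpace ℝ (Fin d), ‖u‖ = 1 → ∃ x ∈ K, ∃ y ∈ K,
        (∀ z ∈ K, inner ℝ u z ≤ inner ℝ u x) ∧ (∀ z ∈ K, inner ℝ u y ≤ inner ℝ u z) ∧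
        inner ℝ u x - inner ℝ u y = 1) →
      ∀ γ : ℝ → EuclideanSpace ℝ (Fin d), γ 0 = γ 1 → eVariationOn γ (Set.Icc 0 1) ≤ 2 →
        ∃ t, ∀ s ∈ Set.Icc (0 : ℝ) 1, γ s + t ∈ K) := by
  intro d hd
  have hnt : Nontrivial (EuclideanSpace ℝ (Fin d)) := by
    refine ⟨0, EuclideanSpace.single ⟨0, by omega⟩ 1, ?_⟩
    intro h
    have h1 := congrArg (fun x : EuclideanSpace ℝ (Fin d) => ‖x‖) h
    simp at h1
  exact all_in_one

end Pool.Agent.Results.MP_17bf10_co.ClosedCurves
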